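import Pool.Agent.Helper74.CA.Stmts

/-!
MP_cb0591_al, module TLC: the cubic identity.
-/

set_option autoImplicit false

namespace Pool.Agent.Helper74.CA

open Subgroup

open scoped commutatorElement

theorem tlc_grp {Q : Type} [Group Q] (w b d : Q) (h1 : w * b = b * w) (h2 : w * d = d * w)
    (h3 : b * d = d * b) (hw : w ^ 3 = 1) (hb : b ^ 3 = 1) (h : w * (b * w) * (d * b * b * w) = 1) :
    d = 1 := by
  have e1 : Commute w b := h1
  have e2 : Commute w d := h2
  have e3 : Commute b d := h3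
  have k1 : w * (b * w) * (d * b * b * w) = w ^ 3 * b ^ 3 * d := by
    calc w * (b * w) * (d * b * b * w) = w * (w * b) * (w * (d * (b * b))) := by
          rw [← h1]
          have : w * (d * (b * b)) = d * b * b * w := by
            have e4 : Commute w (d * (b * b)) := e2.mul_right (e1.mul_right e1)
            rw [e4.eq]
            group
          rw [this]
      _ = w * w * (b * w) * (d * (b * b)) := by group
      _ = w * w * (w * b) * (d * (b * b)) := by rw [h1]
      _ = w * w * w * (b * (d * (b * b))) := by group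
      _ = w * w * w * (b * ((b * b) * d)) := by
          have e4 : Commute (b * b) d := e3.mul_left e3
          rw [e4.eq]
      _ = w ^ 3 * b ^ 3 * d := by
          rw [pow_succ, pow_two, pow_succ, pow_two]
          simp only [mul_assoc]
  rw [k1, hw, hb] at h
  simpa using h

theorem st_TLC (h1 : ST_COMM) (h2 : ST_CUB) : ST_TLC := by
  intro K _ _ a n hK L _ _ C z c hc hac
  obtain ⟨hcomm, _, _, hg1, hmono, hnorm, _, _⟩ := h1 K
  have hcub := h2 K a n hK
  have hc3 : c ^ 3 = 1 := hK.cc c hac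
  have hz : z ∈ gm K 1 := by rw [hg1]; exact Subgroup.mem_top _
  have hcm : ∀ (i j : ℕ) (x y : K), x ∈ gm K i → y ∈ gm K j → ⁅x, y⁆ ∈ gm K (i + j) :=
    fun i j x y hx hy => hcomm i j (Subgroup.commutator_mem_commutator hx hy)
  obtain ⟨w, hw⟩ : ∃ w, w = ⁅z, c⁆ := ⟨_, rfl⟩
  obtain ⟨b, hb⟩ : ∃ b, b = ⁅c, w⁆ := ⟨_, rfl⟩
  obtain ⟨d, hd⟩ : ∃ d, d = ⁅c, b⁆ := ⟨_, rfl⟩
  have hw3 : w ∈ gm K 3 := by rw [hw]; exact hcm 1 2 z c hz hc
  have hb5 : b ∈ gm K 5 := by rw [hb]; exact hcm 2 3 c w hc hw3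
  have hd7 : d ∈ gm K 7 := by rw [hd]; exact hcm 2 5 c b hc hb5
  have e1 : (w * c) ^ 3 = 1 := by
    have : w * c = z * c * z⁻¹ := by rw [hw, commutatorElement_def]; group
    rw [this]
    have h3 : (z * c * z⁻¹) ^ 3 = z * c ^ 3 * z⁻¹ := by
      rw [← MulAut.conj_apply, ← MulAut.conj_apply, ← map_pow]
    rw [h3, hc3]
    group
  have e2 : w * (b * w) * (d * b * b * w) = 1 := by
    have k1 : b * w = c * w * c⁻¹ := by rw [hb, commutatorElement_def]; group
    have k3 : d * b = c * b * c⁻¹ := by rw [hd, commutatorElement_def]; group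
    have k2 : d * b * b * w = c * (c * w * c⁻¹) * c⁻¹ := by
      calc d * b * b * w = (c * b * c⁻¹) * (b * w) := by rw [k3, mul_assoc]
        _ = (c * b * c⁻¹) * (c * w * c⁻¹) := by rw [k1]
        _ = c * (b * w) * c⁻¹ := by group
        _ = c * (c * w * c⁻¹) * c⁻¹ := by rw [k1]
    have k4 : w * (c * w * c⁻¹) * (c * (c * w * c⁻¹) * c⁻¹)
        = (w * c) * (w * c) * (w * c) * (c * c * c)⁻¹ := by
      simp only [mul_inv_rev, mul_assoc, inv_mul_cancel_left, mul_inv_cancel_left]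
    have k5 : (w * c) * (w * c) * (w * c) = 1 := by
      rw [pow_succ, pow_two] at e1
      exact e1
    have k6 : c * c * c = 1 := by
      rw [pow_succ, pow_two] at hc3
      exact hc3
    rw [k2, k1, k4, k5, k6]
    group
  -- modulo gm 8
  have hN := hnorm 8
  have hd8 : d ∈ gm K 8 := by
    have hcom : ∀ (i j : ℕ) (x y : K), x ∈ gm K i → y ∈ gm K j → 8 ≤ i + j →
        (QuotientGroup.mk' (gm K 8)) x * (QuotientGroup.mk' (gm K 8)) y
          = (QuotientGroup.mk' (gm K 8)) y * (QuotientGroup.mk' (gm K 8)) x := by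
      intro i j x y hx hy hij
      have k1 : ⁅x, y⁆ ∈ gm K 8 := hmono 8 (i + j) hij (hcm i j x y hx hy)
      have k2 : (QuotientGroup.mk' (gm K 8)) ⁅x, y⁆ = 1 := by
        rw [QuotientGroup.mk'_apply, QuotientGroup.eq_one_iff]
        exact k1
      rw [commutatorElement_def, map_mul, map_mul, map_mul, map_inv, map_inv] at k2
      have k3 := mul_inv_eq_one.1 k2
      have k4 : (QuotientGroup.mk' (gm K 8)) x * (QuotientGroup.mk' (gm K 8)) y
          = (QuotientGroup.mk' (gm K 8)) x * (QuotientGroup.mk' (gm K 8)) y *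
            ((QuotientGroup.mk' (gm K 8)) x)⁻¹ * (QuotientGroup.mk' (gm K 8)) x := by group
      rw [k4, k3]
    have hcb : ∀ (i : ℕ) (x : K), x ∈ gm K i → 8 ≤ 3 * i →
        ((QuotientGroup.mk' (gm K 8)) x) ^ 3 = 1 := by
      intro i x hx hi
      rw [← map_pow, QuotientGroup.mk'_apply, QuotientGroup.eq_one_iff]
      exact hmono 8 (3 * i) hi (hcub i x hx)
    have k5 := tlc_grp ((QuotientGroup.mk' (gm K 8)) w) ((QuotientGroup.mk' (gm K 8)) b)
      ((QuotientGroup.mk' (gm K 8)) d) (hcom 3 5 w b hw3 hb5 (by norm_num))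
      (hcom 3 7 w d hw3 hd7 (by norm_num)) (hcom 5 7 b d hb5 hd7 (by norm_num))
      (hcb 3 w hw3 (by norm_num)) (hcb 5 b hb5 (by norm_num))
      (by
        rw [← map_mul, ← map_mul, ← map_mul, ← map_mul, ← map_mul, ← map_mul, e2, map_one])
    rw [QuotientGroup.mk'_apply, QuotientGroup.eq_one_iff] at k5
    exact k5
  have l1 : ⁅C.cl 1 z, C.cl 2 c⁆ = C.cl 3 w := by rw [hw]; exact C.lie 1 2 z c hz hc
  have l2 : ⁅C.cl 2 c, C.cl 3 w⁆ = C.cl 5 b := by rw [hb]; exact C.lie 2 3 c w hc hw3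
  have l3 : ⁅C.cl 2 c, C.cl 5 b⁆ = C.cl 7 d := by rw [hd]; exact C.lie 2 5 c b hc hb5
  have l4 : C.cl 7 d = 0 := (C.zero 7 d hd7).2 hd8
  have l5 : ⁅C.cl 3 w, C.cl 2 c⁆ = -C.cl 5 b := by rw [← lie_skew, l2]
  have l6 : ⁅C.cl 5 b, C.cl 2 c⁆ = -C.cl 7 d := by rw [← lie_skew, l3]
  rw [l1, l5, neg_lie, l6, l4, neg_zero, neg_zero]

end Pool.Agent.Helper74.CA
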